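import Pool.Agent.helper54.UG.Spec3

set_option autoImplicit false

namespace Pool.Agent.UG

open Matrix Pool.Agent.H48SL

theorem PLN_addl {n : ℕ} (S : MQ n) (x y z : Fin n → ℚ) : bf S (x + y) z = bf S x z + bf S y z := by
  unfold bf; rw [add_dotProduct]

theorem PLN_addr {n : ℕ} (S : MQ n) (x y z : Fin n → ℚ) : bf S x (y + z) = bf S x y + bf S x z := by
  unfold bf; rw [Matrix.mulVec_add, dotProduct_add]

theorem PLN_smull {n : ℕ} (S : MQ n) (c : ℚ) (x y : Fin n → ℚ) : bf S (c • x) y = c * bf S x y := by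
  unfold bf; rw [smul_dotProduct, smul_eq_mul]

theorem PLN_smulr {n : ℕ} (S : MQ n) (c : ℚ) (x y : Fin n → ℚ) : bf S x (c • y) = c * bf S x y := by
  unfold bf; rw [Matrix.mulVec_smul, dotProduct_smul, smul_eq_mul]

theorem PLN_comm {n : ℕ} (S : MQ n) (hS : Sᵀ = S) (x y : Fin n → ℚ) : bf S x y = bf S y x := by
  unfold bf
  rw [Matrix.dotProduct_mulVec, dotProduct_comm, ← Matrix.mulVec_transpose, hS]

theorem PLN_neg {n : ℕ} (S : MQ n) (x y : Fin n → ℚ) : bf (-S) x y = - bf S x y := by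
  unfold bf; rw [Matrix.neg_mulVec, dotProduct_neg]

theorem PLN_nondeg {n : ℕ} (S : MQ n) (hd : S.det ≠ 0) (z : Fin n → ℚ) (hz : z ≠ 0) :
    ∃ s, bf S z s ≠ 0 := by
  by_contra h
  push Not at h
  apply hd
  apply Matrix.exists_vecMul_eq_zero_iff.mp
  refine ⟨z, hz, ?_⟩
  ext i
  have := h (Pi.single i 1)
  unfold bf at this
  rw [Matrix.dotProduct_mulVec] at this
  simpa using this

theorem PLN_sq (s m : ℚ) (hs : s ≠ 0) (hm : 0 < m) (bad : ℚ) :
    ∃ t : ℚ, t ≠ bad ∧ ¬ IsSquare (s ^ 2 + t ^ 2 * m) := by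
  -- s = a / b, m = c / d
  obtain ⟨a, ha⟩ : ∃ a : ℤ, a = s.num := ⟨_, rfl⟩
  obtain ⟨b, hb⟩ : ∃ b : ℕ, b = s.den := ⟨_, rfl⟩
  obtain ⟨c, hc⟩ : ∃ c : ℤ, c = m.num := ⟨_, rfl⟩
  obtain ⟨d, hdd⟩ : ∃ d : ℕ, d = m.den := ⟨_, rfl⟩
  have hb0 : 0 < b := by rw [hb]; exact s.den_pos
  have hd0 : 0 < d := by rw [hdd]; exact m.den_pos
  have ha0 : a ≠ 0 := by rw [ha]; exact Rat.num_ne_zero.mpr hs
  have hc0 : 0 < c := by rw [hc]; exact Rat.num_pos.mpr hm
  have hsab : s = (a : ℚ) / b := by rw [ha, hb]; exact (Rat.num_div_den s).symm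
  have hmcd : m = (c : ℚ) / d := by rw [hc, hdd]; exact (Rat.num_div_den m).symm
  have hbq : (b : ℚ) ≠ 0 := by exact_mod_cast hb0.ne'
  have hdq : (d : ℚ) ≠ 0 := by exact_mod_cast hd0.ne'
  have key : ∀ M : ℕ, 0 < M → c * d < M → ¬ IsSquare (s ^ 2 + (1 / ((b : ℚ) * d * M)) ^ 2 * m) := by
    intro M hM0 hM hsq
    have hMq : (M : ℚ) ≠ 0 := by exact_mod_cast hM0.ne'
    have h1 : IsSquare (((a * d ^ 2 * M) ^ 2 + c * d : ℤ) : ℚ) := by
      obtain ⟨r, hr⟩ := hsq
      refine ⟨r * (b * d * M * d), ?_⟩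
      have : r * (b * d * M * d) * (r * (b * d * M * d)) = (r * r) * (b * d * M * d) ^ 2 := by ring
      rw [this, ← hr, hsab, hmcd]
      push_cast
      field_simp
    rw [Rat.isSquare_intCast_iff] at h1
    obtain ⟨r, hr⟩ := h1
    have hK : (M : ℤ) ≤ |a * d ^ 2 * M| := by
      rw [abs_mul, abs_mul]
      have h2 : 1 ≤ |a| := Int.one_le_abs ha0
      have h3 : (1 : ℤ) ≤ |(d : ℤ) ^ 2| := Int.one_le_abs (by positivity)
      have h4 : |(M : ℤ)| = M := abs_of_nonneg (by positivity)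
      rw [h4]
      have h5 : (1 : ℤ) ≤ |a| * |(d : ℤ) ^ 2| := by nlinarith
      have h6 : (0 : ℤ) ≤ M := by positivity
      nlinarith
    obtain ⟨K, hKd⟩ : ∃ K : ℤ, K = |a * d ^ 2 * M| := ⟨_, rfl⟩
    rw [← hKd] at hK
    have hK2 : (a * d ^ 2 * M) ^ 2 = K ^ 2 := by rw [hKd, sq_abs]
    rw [hK2] at hr
    have hcd : 0 < c * (d : ℤ) := by positivity
    have hK0 : 0 < K := by
      have : (0 : ℤ) < M := by exact_mod_cast hM0
      linarith
    have hr2 : K ^ 2 + c * d = |r| ^ 2 := by rw [sq_abs, hr]; ring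
    have hr0 : 0 ≤ |r| := abs_nonneg r
    have h7 : K < |r| := by
      by_contra hcon
      push Not at hcon
      have : |r| ^ 2 ≤ K ^ 2 := pow_le_pow_left₀ hr0 hcon 2
      linarith
    have h8 : K + 1 ≤ |r| := h7
    have h9 : (K + 1) ^ 2 ≤ |r| ^ 2 := pow_le_pow_left₀ (by linarith) h8 2
    have h10 : c * (d : ℤ) < K := lt_of_lt_of_le hM hK
    nlinarith
  obtain ⟨M, hM⟩ : ∃ M : ℕ, c * d < M ∧ 0 < M := by
    refine ⟨(c * d).toNat + 1, ?_, by omega⟩
    push_cast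
    have := Int.self_le_toNat (c * d)
    omega
  by_cases hbad : (1 / ((b : ℚ) * d * M)) = bad
  · refine ⟨1 / ((b : ℚ) * d * (M + 1 : ℕ)), ?_, key (M + 1) (by omega) (by push_cast; linarith [hM.1])⟩
    rw [← hbad]
    intro h
    have hMq : (M : ℚ) ≠ 0 := by exact_mod_cast hM.2.ne'
    have hMq1 : ((M + 1 : ℕ) : ℚ) ≠ 0 := by exact_mod_cast (Nat.succ_ne_zero M)
    rw [one_div, one_div, _root_.inv_inj] at h
    have h2 : ((M + 1 : ℕ) : ℚ) = M := mul_left_cancel₀ (mul_ne_zero hbq hdq) h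
    push_cast at h2
    linarith
  · exact ⟨_, hbad, key M hM.2 hM.1⟩

theorem PLN_core {n : ℕ} (hn : 4 ≤ n) (S : MQ n) (hS : Sᵀ = S) (hd : S.det ≠ 0)
    (u w y₀ b : Fin n → ℚ) (huu : bf S u u ≠ 0) (hub : bf S u b = 0)
    (huy : bf S u y₀ = 0) (hy₀ : bf S y₀ y₀ < 0) (hb : 0 < bf S b b) (hwb : bf S w b ≠ 0) :
    ∃ x y : Fin n → ℚ, bf S u x = 0 ∧ bf S u y = 0 ∧ bf S x y = 0 ∧ 0 < bf S x x ∧ bf S y y < 0 ∧
      ¬ IsSquare (- (bf S x x * bf S y y)) ∧ (bf S w x ≠ 0 ∨ bf S w y ≠ 0) := by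
  have hc := PLN_comm S hS
  -- y
  obtain ⟨y, hyd⟩ : ∃ y : Fin n → ℚ, y = y₀ + (-(bf S b y₀ / bf S b b)) • b := ⟨_, rfl⟩
  have huy1 : bf S u y = 0 := by
    rw [hyd, PLN_addr, PLN_smulr, huy, hub]; ring
  have hby : bf S b y = 0 := by
    rw [hyd, PLN_addr, PLN_smulr]
    field_simp
    ring
  have hyy : bf S y y < 0 := by
    have h1 : bf S y y = bf S y₀ y₀ - bf S b y₀ ^ 2 / bf S b b := by
      nth_rewrite 1 [hyd]
      rw [PLN_addl, PLN_smull, hby, mul_zero, add_zero, hyd, PLN_addr, PLN_smulr, hc y₀ b]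
      field_simp
      ring
    rw [h1]
    have : 0 ≤ bf S b y₀ ^ 2 / bf S b b := by positivity
    linarith
  have hyb : bf S y b = 0 := by rw [hc, hby]
  -- z
  have hz : ∃ z : Fin n → ℚ, bf S u z = 0 ∧ bf S b z = 0 ∧ bf S y z = 0 ∧ bf S z z ≠ 0 := by
    let φ : (Fin n → ℚ) →ₗ[ℚ] (Fin 3 → ℚ) :=
      { toFun := fun v => ![bf S u v, bf S b v, bf S y v]
        map_add' := by
          intro v v'
          rw [PLN_addr, PLN_addr, PLN_addr]
          ext i
          fin_cases i <;> simp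
        map_smul' := by
          intro c v
          rw [PLN_smulr, PLN_smulr, PLN_smulr, RingHom.id_apply]
          ext i
          fin_cases i <;> simp }
    have hker : LinearMap.ker φ ≠ ⊥ := by
      apply LinearMap.ker_ne_bot_of_finrank_lt
      simp only [Module.finrank_fin_fun]
      omega
    obtain ⟨z', hz'k, hz'0⟩ := Submodule.exists_mem_ne_zero_of_ne_bot hker
    have hφ : ![bf S u z', bf S b z', bf S y z'] = 0 := hz'k
    have e1 : bf S u z' = 0 := congrFun hφ 0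
    have e2 : bf S b z' = 0 := congrFun hφ 1
    have e3 : bf S y z' = 0 := congrFun hφ 2
    by_cases hz'z' : bf S z' z' = 0
    · obtain ⟨s, hs⟩ := PLN_nondeg S hd z' hz'0
      obtain ⟨s', hs'⟩ : ∃ s' : Fin n → ℚ, s' = s + (-(bf S u s / bf S u u)) • u +
        (-(bf S b s / bf S b b)) • b + (-(bf S y s / bf S y y)) • y := ⟨_, rfl⟩
      have f1 : bf S u s' = 0 := by
        rw [hs', PLN_addr, PLN_addr, PLN_addr, PLN_smulr, PLN_smulr, PLN_smulr, hub, huy1]
        field_simp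
        ring
      have f2 : bf S b s' = 0 := by
        rw [hs', PLN_addr, PLN_addr, PLN_addr, PLN_smulr, PLN_smulr, PLN_smulr, hby, hc b u, hub]
        field_simp
        ring
      have f3 : bf S y s' = 0 := by
        rw [hs', PLN_addr, PLN_addr, PLN_addr, PLN_smulr, PLN_smulr, PLN_smulr, hyb, hc y u, huy1]
        have := hyy.ne
        field_simp
        ring
      have f4 : bf S z' s' ≠ 0 := by
        rw [hs', PLN_addr, PLN_addr, PLN_addr, PLN_smulr, PLN_smulr, PLN_smulr, hc z' u, hc z' b,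
          hc z' y, e1, e2, e3]
        simpa using hs
      by_cases hss : bf S s' s' = 0
      · refine ⟨z' + s', ?_, ?_, ?_, ?_⟩
        · rw [PLN_addr, e1, f1, add_zero]
        · rw [PLN_addr, e2, f2, add_zero]
        · rw [PLN_addr, e3, f3, add_zero]
        · rw [PLN_addr, PLN_addl, PLN_addl, hz'z', hss, hc s' z']
          intro h
          apply f4
          linarith
      · exact ⟨s', f1, f2, f3, hss⟩
    · exact ⟨z', e1, e2, e3, hz'z'⟩
  obtain ⟨z, huz, hbz, hyz, hzz⟩ := hz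
  by_cases hsq : IsSquare (- (bf S b b * bf S y y))
  swap
  · exact ⟨b, y, hub, huy1, hby, hb, hyy, hsq, Or.inl hwb⟩
  obtain ⟨s, hs⟩ := hsq
  have hs0 : s ≠ 0 := by
    rintro rfl
    rw [mul_zero] at hs
    nlinarith [mul_pos hb (neg_pos.mpr hyy)]
  rcases lt_or_gt_of_ne hzz with hD | hD
  · obtain ⟨t, -, ht⟩ := PLN_sq s (bf S b b * (-(bf S z z))) hs0 (mul_pos hb (neg_pos.mpr hD)) 0
    have hyt : bf S (y + t • z) (y + t • z) = bf S y y + t ^ 2 * bf S z z := by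
      rw [PLN_addr, PLN_addl, PLN_addl, PLN_smulr, PLN_smulr, PLN_smull, PLN_smull, hyz, hc z y, hyz]
      ring
    refine ⟨b, y + t • z, hub, ?_, ?_, hb, ?_, ?_, Or.inl hwb⟩
    · rw [PLN_addr, PLN_smulr, huy1, huz]; ring
    · rw [PLN_addr, PLN_smulr, hby, hbz]; ring
    · rw [hyt]
      nlinarith [sq_nonneg t]
    · rw [hyt]
      have : -(bf S b b * (bf S y y + t ^ 2 * bf S z z)) =
          s ^ 2 + t ^ 2 * (bf S b b * (-(bf S z z))) := by
        have : s ^ 2 = s * s := sq s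
        rw [this, ← hs]
        ring
      rw [this]
      exact ht
  · obtain ⟨t, htb, ht⟩ := PLN_sq s ((-(bf S y y)) * bf S z z) hs0 (mul_pos (neg_pos.mpr hyy) hD)
      (-(bf S w b) / bf S w z)
    have hbt : bf S (b + t • z) (b + t • z) = bf S b b + t ^ 2 * bf S z z := by
      rw [PLN_addr, PLN_addl, PLN_addl, PLN_smulr, PLN_smulr, PLN_smull, PLN_smull, hbz, hc z b, hbz]
      ring
    refine ⟨b + t • z, y, ?_, huy1, ?_, ?_, hyy, ?_, Or.inl ?_⟩
    · rw [PLN_addr, PLN_smulr, hub, huz]; ring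
    · rw [PLN_addl, PLN_smull, hby, hc z y, hyz]; ring
    · rw [hbt]
      nlinarith [sq_nonneg t]
    · rw [hbt]
      have : -((bf S b b + t ^ 2 * bf S z z) * bf S y y) =
          s ^ 2 + t ^ 2 * ((-(bf S y y)) * bf S z z) := by
        have : s ^ 2 = s * s := sq s
        rw [this, ← hs]
        ring
      rw [this]
      exact ht
    · rw [PLN_addr, PLN_smulr]
      intro h
      by_cases hwz : bf S w z = 0
      · rw [hwz, mul_zero, add_zero] at h
        exact hwb h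
      · apply htb
        rw [eq_div_iff hwz]
        linarith

theorem PLN : PLN_stmt := by
  intro n hn S hS hd u w x₀ y₀ huu huw hw hux huy hx hy
  have hc := PLN_comm S hS
  -- b
  have hb : ∃ b : Fin n → ℚ, bf S u b = 0 ∧ bf S b b ≠ 0 ∧ bf S w b ≠ 0 := by
    obtain ⟨s, hs⟩ := PLN_nondeg S hd w hw
    obtain ⟨b₀, hb₀⟩ : ∃ b : Fin n → ℚ, b = s + (-(bf S u s / bf S u u)) • u := ⟨_, rfl⟩
    have hub : bf S u b₀ = 0 := by
      rw [hb₀, PLN_addr, PLN_smulr]
      field_simp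
      ring
    have hwb : bf S w b₀ ≠ 0 := by
      rw [hb₀, PLN_addr, PLN_smulr, hc w u, huw, mul_zero, add_zero]
      exact hs
    have hform : ∀ ε : ℚ, bf S (b₀ + ε • x₀) (b₀ + ε • x₀) =
        bf S b₀ b₀ + 2 * ε * bf S b₀ x₀ + ε ^ 2 * bf S x₀ x₀ := by
      intro ε
      rw [PLN_addr, PLN_addl, PLN_addl, PLN_smulr, PLN_smulr, PLN_smull, PLN_smull, hc x₀ b₀]
      ring
    have hform2 : ∀ ε : ℚ, bf S w (b₀ + ε • x₀) = bf S w b₀ + ε * bf S w x₀ := by
      intro ε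
      rw [PLN_addr, PLN_smulr]
    have hub2 : ∀ ε : ℚ, bf S u (b₀ + ε • x₀) = 0 := by
      intro ε
      rw [PLN_addr, PLN_smulr, hub, hux]; ring
    by_cases hbb : bf S b₀ b₀ = 0
    swap
    · exact ⟨b₀, hub, hbb, hwb⟩
    by_contra hcon
    push Not at hcon
    have h1 := hcon _ (hub2 1)
    have h2 := hcon _ (hub2 2)
    have h3 := hcon _ (hub2 3)
    rw [hform, hform2, hbb] at h1 h2 h3
    by_cases k1 : (0 : ℚ) + 2 * 1 * bf S b₀ x₀ + 1 ^ 2 * bf S x₀ x₀ = 0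
    · have g2 := h2 (by intro h; nlinarith)
      have g3 := h3 (by intro h; nlinarith)
      apply hwb
      linarith
    · have g1 := h1 k1
      by_cases k2 : (0 : ℚ) + 2 * 2 * bf S b₀ x₀ + 2 ^ 2 * bf S x₀ x₀ = 0
      · have g3 := h3 (by intro h; nlinarith)
        apply hwb
        linarith
      · have g2 := h2 k2
        apply hwb
        linarith
  obtain ⟨b, hub, hbb, hwb⟩ := hb
  rcases lt_or_gt_of_ne hbb with hneg | hpos
  · obtain ⟨x, y, h1, h2, h3, h4, h5, h6, h7⟩ := PLN_core hn (-S) (by rw [Matrix.transpose_neg, hS])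
      (by
        rw [Matrix.det_neg]
        exact mul_ne_zero (pow_ne_zero _ (by norm_num)) hd) u w x₀ b
      (by rw [PLN_neg]; exact neg_ne_zero.mpr huu) (by rw [PLN_neg, hub, neg_zero])
      (by rw [PLN_neg, hux, neg_zero]) (by rw [PLN_neg]; linarith) (by rw [PLN_neg]; linarith)
      (by rw [PLN_neg]; exact neg_ne_zero.mpr hwb)
    rw [PLN_neg] at h1 h2 h3 h4 h5
    rw [PLN_neg, PLN_neg] at h6 h7
    refine ⟨y, x, by linarith, by linarith, ?_, by linarith, by linarith, ?_, ?_⟩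
    · rw [hc]; linarith
    · have : -(bf S y y * bf S x x) = -(-bf S x x * -bf S y y) := by ring
      rw [this]
      exact h6
    · rcases h7 with h7 | h7
      · exact Or.inr (fun h => h7 (by rw [h, neg_zero]))
      · exact Or.inl (fun h => h7 (by rw [h, neg_zero]))
  · exact PLN_core hn S hS hd u w y₀ b huu hub huy hy hpos hwb

end Pool.Agent.UG
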